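import Mathlib

/-!
# Exponential polynomials with bases 1, ..., m (ModelCounts C, block E6)
-/

set_option autoImplicit false

namespace Pool.Agent.Helper38.EP

open Filter Finset

/-- `F n = Σ_{j = 1..m} p_j(n) j^n` for all large `n` -/
def EvEP (F : ℕ → ℚ) : Prop :=
  ∃ (m : ℕ) (p : ℕ → Polynomial ℚ), ∀ᶠ n : ℕ in atTop,
    F n = ∑ j ∈ Icc 1 m, (p j).eval (n : ℚ) * (j : ℚ) ^ n

theorem EvEP.congr {F G : ℕ → ℚ} (hF : EvEP F) (h : ∀ᶠ n : ℕ in atTop, G n = F n) : EvEP G := by
  obtain ⟨m, p, hp⟩ := hF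
  exact ⟨m, p, by filter_upwards [hp, h] with n h1 h2; rw [h2, h1]⟩

/-- the number of bases can be increased -/
theorem lift_m {F : ℕ → ℚ} {m : ℕ} {p : ℕ → Polynomial ℚ} (hp : ∀ᶠ n : ℕ in atTop,
    F n = ∑ j ∈ Icc 1 m, (p j).eval (n : ℚ) * (j : ℚ) ^ n) {m' : ℕ} (hm : m ≤ m') :
    ∀ᶠ n : ℕ in atTop, F n = ∑ j ∈ Icc 1 m', ((if j ≤ m then p j else 0 : Polynomial ℚ)).eval (n : ℚ) * (j : ℚ) ^ n := by
  filter_upwards [hp] with n hn
  rw [hn]
  have hsub : Icc 1 m ⊆ Icc 1 m' := Finset.Icc_subset_Icc le_rfl hm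
  rw [← Finset.sum_subset hsub]
  · apply Finset.sum_congr rfl
    intro j hj
    rw [if_pos (Finset.mem_Icc.mp hj).2]
  · intro j hj hj2
    rw [if_neg (fun h => hj2 (Finset.mem_Icc.mpr ⟨(Finset.mem_Icc.mp hj).1, h⟩))]
    simp

theorem EvEP.zero : EvEP (fun _ => 0) := ⟨0, fun _ => 0, by simp⟩

theorem EvEP.add {F G : ℕ → ℚ} (hF : EvEP F) (hG : EvEP G) : EvEP (fun n => F n + G n) := by
  obtain ⟨m, p, hp⟩ := hF
  obtain ⟨m', p', hp'⟩ := hG
  have h1 := lift_m hp (le_max_left m m')
  have h2 := lift_m hp' (le_max_right m m')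
  refine ⟨max m m', fun j => (if j ≤ m then p j else 0) + (if j ≤ m' then p' j else 0), ?_⟩
  filter_upwards [h1, h2] with n a1 a2
  rw [a1, a2, ← Finset.sum_add_distrib]
  apply Finset.sum_congr rfl
  intro j _
  rw [Polynomial.eval_add, add_mul]

theorem EvEP.smul {F : ℕ → ℚ} (c : ℚ) (hF : EvEP F) : EvEP (fun n => c * F n) := by
  obtain ⟨m, p, hp⟩ := hF
  refine ⟨m, fun j => Polynomial.C c * p j, ?_⟩
  filter_upwards [hp] with n hn
  rw [hn, Finset.mul_sum]
  apply Finset.sum_congr rfl
  intro j _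
  rw [Polynomial.eval_mul, Polynomial.eval_C, mul_assoc]

theorem EvEP.sum {ι : Type*} (s : Finset ι) {F : ι → ℕ → ℚ} (h : ∀ i ∈ s, EvEP (F i)) :
    EvEP (fun n => ∑ i ∈ s, F i n) := by
  classical
  induction s using Finset.induction_on with
  | empty => simpa using EvEP.zero
  | insert a s ha ih =>
    have h1 := h a (Finset.mem_insert_self _ _)
    have h2 := ih (fun i hi => h i (Finset.mem_insert_of_mem hi))
    exact (h1.add h2).congr (Filter.Eventually.of_forall (fun n => Finset.sum_insert ha))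

/-- the basic functions `n (n - 1) ... (n - t + 1) j ^ (n - t)` -/
theorem EvEP.basic (t j : ℕ) : EvEP (fun n => (n.descFactorial t : ℚ) * (j : ℚ) ^ (n - t)) := by
  rcases Nat.eq_zero_or_pos j with hj | hj
  · subst hj
    refine EvEP.zero.congr ?_
    filter_upwards [eventually_gt_atTop t] with n hn
    rw [Nat.cast_zero, zero_pow (by omega), mul_zero]
  · refine ⟨j, fun i => if i = j then Polynomial.C (((j : ℚ) ^ t)⁻¹) * descPochhammer ℚ t else 0, ?_⟩
    filter_upwards [eventually_ge_atTop t] with n hn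
    rw [Finset.sum_eq_single j]
    · rw [if_pos rfl, Polynomial.eval_mul, Polynomial.eval_C]
      have h1 : (descPochhammer ℚ t).eval (n : ℚ) = (n.descFactorial t : ℚ) :=
        descPochhammer_eval_eq_descFactorial ℚ n t
      have hj0 : (j : ℚ) ≠ 0 := by exact_mod_cast hj.ne'
      rw [h1, pow_sub₀ _ hj0 hn]
      ring
    · intro i _ hi
      rw [if_neg hi]
      simp
    · intro hj2
      exact absurd (Finset.mem_Icc.mpr ⟨hj, le_rfl⟩) hj2

/-! ### the span of the basic functions -/

/-- the span of the basic functions -/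
def Sp (F : ℕ → ℚ) : Prop :=
  F ∈ Submodule.span ℚ (Set.range fun q : ℕ × ℕ => fun n : ℕ => (n.descFactorial q.1 : ℚ) * (q.2 : ℚ) ^ (n - q.1))

theorem Sp.ev {F : ℕ → ℚ} (h : Sp F) : EvEP F := by
  unfold Sp at h
  induction h using Submodule.span_induction with
  | mem x hx =>
    obtain ⟨q, rfl⟩ := hx
    exact EvEP.basic q.1 q.2
  | zero => exact EvEP.zero
  | add x y _ _ hx hy => exact hx.add hy
  | smul a x _ hx => exact hx.smul a

theorem Sp.add {F G : ℕ → ℚ} (hF : Sp F) (hG : Sp G) : Sp (fun n => F n + G n) := Submodule.add_mem _ hF hG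

theorem Sp.zero : Sp (fun _ => 0) := Submodule.zero_mem _

theorem Sp.smul {F : ℕ → ℚ} (c : ℚ) (hF : Sp F) : Sp (fun n => c * F n) := Submodule.smul_mem _ c hF

theorem Sp.sum {ι : Type*} (s : Finset ι) {F : ι → ℕ → ℚ} (h : ∀ i ∈ s, Sp (F i)) :
    Sp (fun n => ∑ i ∈ s, F i n) := by
  have h1 : (fun n => ∑ i ∈ s, F i n) = ∑ i ∈ s, F i := by
    funext n
    rw [Finset.sum_apply]
  unfold Sp
  rw [h1]
  exact Submodule.sum_mem _ h

theorem Sp.basic (t j : ℕ) : Sp (fun n => (n.descFactorial t : ℚ) * (j : ℚ) ^ (n - t)) :=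
  Submodule.subset_span ⟨(t, j), rfl⟩

theorem Sp.neg {F : ℕ → ℚ} (hF : Sp F) : Sp (fun n => - F n) := Submodule.neg_mem _ hF

theorem Sp.sub {F G : ℕ → ℚ} (hF : Sp F) (hG : Sp G) : Sp (fun n => F n - G n) := Submodule.sub_mem _ hF hG

/-- one class with exactly `s` points -/
theorem Sp.choose {F : ℕ → ℚ} (s : ℕ) (h : Sp F) : Sp (fun n => (n.choose s : ℚ) * F (n - s)) := by
  unfold Sp at h
  induction h using Submodule.span_induction with
  | mem x hx =>
    obtain ⟨q, rfl⟩ := hx
    have h1 := (Sp.basic (s + q.1) q.2).smul ((s.factorial : ℚ)⁻¹)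
    have h2 : (fun n : ℕ => (n.choose s : ℚ) * (((n - s).descFactorial q.1 : ℚ) * (q.2 : ℚ) ^ (n - s - q.1))) =
        fun n : ℕ => ((s.factorial : ℚ)⁻¹) * ((n.descFactorial (s + q.1) : ℚ) * (q.2 : ℚ) ^ (n - (s + q.1))) := by
      funext n
      have h3 : (n.descFactorial (s + q.1) : ℚ) = (n - s).descFactorial q.1 * n.descFactorial s := by
        have := Nat.descFactorial_mul_descFactorial (n := n) (show s ≤ s + q.1 by omega)
        rw [Nat.add_sub_cancel_left] at this
        rw [← this]
        push_cast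
        ring
      have h4 : (n.descFactorial s : ℚ) = s.factorial * n.choose s := by
        rw [Nat.descFactorial_eq_factorial_mul_choose]
        push_cast
        ring
      have h5 : (s.factorial : ℚ) ≠ 0 := by exact_mod_cast s.factorial_ne_zero
      rw [h3, h4, Nat.sub_sub]
      field_simp
    exact h2 ▸ h1
  | zero => simpa using Sp.zero
  | add x y _ _ hx hy =>
    refine (congrArg Sp ?_).mpr (hx.add hy)
    funext n
    simp only [Pi.add_apply]
    ring
  | smul a x _ hx =>
    refine (congrArg Sp ?_).mpr (hx.smul a)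
    funext n
    simp only [Pi.smul_apply, smul_eq_mul]
    ring

/-- `Σ_k C(n, k) k (k - 1) ... (k - t + 1) j ^ (k - t) = n (n - 1) ... (n - t + 1) (j + 1) ^ (n - t)` -/
theorem binom_basic (t j n : ℕ) :
    ∑ k ∈ range (n + 1), n.choose k * (k.descFactorial t * j ^ (k - t)) = n.descFactorial t * (j + 1) ^ (n - t) := by
  rcases Nat.lt_or_ge n t with h | h
  · rw [Nat.descFactorial_of_lt h, zero_mul]
    apply Finset.sum_eq_zero
    intro k hk
    rw [Finset.mem_range] at hk
    rw [Nat.descFactorial_of_lt (by omega), zero_mul, mul_zero]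
  · have h0 : ∀ k ∈ range (n + 1), n.choose k * (k.descFactorial t * j ^ (k - t)) =
        if t ≤ k then n.descFactorial t * ((n - t).choose (k - t) * j ^ (k - t)) else 0 := by
      intro k hk
      rw [Finset.mem_range] at hk
      split_ifs with h1
      · rw [Nat.descFactorial_eq_factorial_mul_choose, Nat.descFactorial_eq_factorial_mul_choose]
        have h2 := Nat.choose_mul (n := n) (k := k) (s := t) h1
        calc n.choose k * (t.factorial * k.choose t * j ^ (k - t))
            = t.factorial * (n.choose k * k.choose t) * j ^ (k - t) := by ring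
          _ = t.factorial * (n.choose t * (n - t).choose (k - t)) * j ^ (k - t) := by rw [h2]
          _ = _ := by ring
      · rw [Nat.descFactorial_of_lt (by omega), zero_mul, mul_zero]
    rw [Finset.sum_congr rfl h0, ← Finset.sum_filter]
    have h3 : (range (n + 1)).filter (fun k => t ≤ k) = (range (n - t + 1)).image (fun i => t + i) := by
      ext k
      simp only [Finset.mem_filter, Finset.mem_range, Finset.mem_image]
      constructor
      · rintro ⟨h1, h2⟩
        exact ⟨k - t, by omega, by omega⟩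
      · rintro ⟨i, hi, rfl⟩
        omega
    rw [h3, Finset.sum_image (fun a _ b _ hab => by simpa using hab), add_pow, Finset.mul_sum]
    apply Finset.sum_congr rfl
    intro i hi
    simp only [Nat.add_sub_cancel_left, one_pow, mul_one]
    push_cast
    ring

/-- one class with any number of points -/
theorem Sp.all {F : ℕ → ℚ} (h : Sp F) : Sp (fun n => ∑ a ∈ range (n + 1), (n.choose a : ℚ) * F (n - a)) := by
  unfold Sp at h
  induction h using Submodule.span_induction with
  | mem x hx =>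
    obtain ⟨q, rfl⟩ := hx
    have h1 := Sp.basic q.1 (q.2 + 1)
    refine (congrArg Sp ?_).mpr h1
    funext n
    have h2 := binom_basic q.1 q.2 n
    have h3 : ∑ a ∈ range (n + 1), (n.choose a : ℚ) * (((n - a).descFactorial q.1 : ℚ) * (q.2 : ℚ) ^ (n - a - q.1)) =
        ∑ k ∈ range (n + 1), (n.choose k : ℚ) * ((k.descFactorial q.1 : ℚ) * (q.2 : ℚ) ^ (k - q.1)) := by
      rw [← Finset.sum_range_reflect]
      apply Finset.sum_congr rfl
      intro k hk
      rw [Finset.mem_range] at hk
      have h4 : n + 1 - 1 - k = n - k := by omega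
      have h5 : n - (n - k) = k := by omega
      rw [h4, h5, Nat.choose_symm (by omega)]
    rw [h3]
    exact_mod_cast h2
  | zero => simpa using Sp.zero
  | add x y _ _ hx hy =>
    refine (congrArg Sp ?_).mpr (hx.add hy)
    funext n
    simp only [Pi.add_apply, mul_add]
    rw [Finset.sum_add_distrib]
  | smul a x _ hx =>
    refine (congrArg Sp ?_).mpr (hx.smul a)
    funext n
    simp only [Pi.smul_apply, smul_eq_mul]
    rw [Finset.mul_sum]
    apply Finset.sum_congr rfl
    intro k _
    ring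

/-- one class with at least `Q` points -/
theorem Sp.ge {F : ℕ → ℚ} (Q : ℕ) (h : Sp F) :
    Sp (fun n => ∑ a ∈ (range (n + 1)).filter (fun a => Q ≤ a), (n.choose a : ℚ) * F (n - a)) := by
  have h1 := h.all.sub (Sp.sum (range Q) (fun a _ => h.choose a))
  refine (congrArg Sp ?_).mpr h1
  funext n
  have h2 : ∑ a ∈ range Q, (n.choose a : ℚ) * F (n - a) =
      ∑ a ∈ (range (n + 1)).filter (fun a => ¬ Q ≤ a), (n.choose a : ℚ) * F (n - a) := by
    symm
    apply Finset.sum_subset
    · intro a ha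
      simp only [Finset.mem_filter, Finset.mem_range, not_le] at ha ⊢
      exact ha.2
    · intro a ha hb
      simp only [Finset.mem_filter, Finset.mem_range, not_le, not_and] at ha hb
      rw [Nat.choose_eq_zero_of_lt (by
        by_contra hc
        exact absurd ha (not_lt.mpr (not_lt.mp (hb (by omega)))))]
      simp
  rw [h2, eq_sub_iff_add_eq, Finset.sum_filter_add_sum_filter_not]

/-- the function which is one at `0` and else zero -/
theorem Sp.one_zero : Sp (fun n => if n = 0 then 1 else 0) := by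
  refine (congrArg Sp ?_).mpr (Sp.basic 0 0)
  funext n
  rcases Nat.eq_zero_or_pos n with h | h
  · subst h
    simp
  · rw [if_neg (by omega)]
    simp [zero_pow h.ne']

/-- the form with polynomials indexed by `Fin m` -/
theorem EvEP.fin {F : ℕ → ℚ} (h : EvEP F) : ∃ (m : ℕ) (p : Fin m → Polynomial ℚ),
    ∀ᶠ n : ℕ in atTop, F n = ∑ j, (p j).eval (n : ℚ) * ((j : ℕ) + 1 : ℚ) ^ n := by
  obtain ⟨m, p, hp⟩ := h
  refine ⟨m, fun j => p (j + 1), ?_⟩
  filter_upwards [hp] with n hn
  rw [hn, Fin.sum_univ_eq_sum_range (fun j => (p (j + 1)).eval (n : ℚ) * ((j : ℕ) + 1 : ℚ) ^ n) m]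
  have h1 : Icc 1 m = (range m).image (fun j => j + 1) := by
    ext k
    simp only [Finset.mem_Icc, Finset.mem_image, Finset.mem_range]
    constructor
    · rintro ⟨h1, h2⟩
      exact ⟨k - 1, by omega, by omega⟩
    · rintro ⟨i, hi, rfl⟩
      omega
  rw [h1, Finset.sum_image (fun a _ b _ hab => by simpa using hab)]
  apply Finset.sum_congr rfl
  intro j _
  push_cast
  rfl

theorem Sp.fin {F : ℕ → ℚ} (h : Sp F) : ∃ (m : ℕ) (p : Fin m → Polynomial ℚ),
    ∀ᶠ n : ℕ in atTop, F n = ∑ j, (p j).eval (n : ℚ) * ((j : ℕ) + 1 : ℚ) ^ n := h.ev.fin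

end Pool.Agent.Helper38.EP
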