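import Pool.Agent.Helper83.EP.Defs
import Pool.Agent.Helper38.EP.Ev

/-!
# ModelCounts C, block E6 (statement of helper83)
-/

set_option autoImplicit false

namespace Pool.Agent.Helper38.EP

open Filter Pool.Agent.Helper83.EP

theorem sp_iff {F : ℕ → ℚ} : Sp F ↔ F ∈ Pool.Agent.Helper83.EP.EP := Iff.rfl

/-- E6: eventually `∑ p_j(n) j ^ n` -/
theorem EP_eventually {F : ℕ → ℚ} (hF : F ∈ Pool.Agent.Helper83.EP.EP) : ∃ (m : ℕ) (p : Fin m → Polynomial ℚ), ∀ᶠ n : ℕ in atTop,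
    F n = ∑ j, (p j).eval (n : ℚ) * ((j : ℕ) + 1 : ℚ) ^ n := Sp.fin (sp_iff.2 hF)

/-- E4a -/
theorem EP_choose {F : ℕ → ℚ} (hF : F ∈ Pool.Agent.Helper83.EP.EP) (s : ℕ) :
    (fun n => (n.choose s : ℚ) * F (n - s)) ∈ Pool.Agent.Helper83.EP.EP := Sp.choose s (sp_iff.2 hF)

/-- E4b -/
theorem EP_conv {F : ℕ → ℚ} (hF : F ∈ Pool.Agent.Helper83.EP.EP) :
    (fun n => ∑ a ∈ Finset.range (n + 1), (n.choose a : ℚ) * F (n - a)) ∈ Pool.Agent.Helper83.EP.EP := Sp.all (sp_iff.2 hF)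

end Pool.Agent.Helper38.EP
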